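import Pool.Agent.R735.Pyr.Main

/-!
# The space of pyramids is embedded in the hyperspace with the Fell and with the Wijsman topology

Let `t` be the weak topology on the set of pyramids, i.e. the compact metrizable topology whose
convergent sequences are exactly the weakly convergent ones. The inclusion of the set of pyramids
into the set of closed subsets of the space of mm-spaces with the box distance is a topological
embedding for the Fell topology and for the Wijsman topology.

The proof (`Pool/Agent/R735/Pyr/`) rests on the following. For an mm-space `A` and `η > 0` there is
a cube `[0, R]^N` such that every mm-space `B` dominates a mm-space `C` given by a measure on the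
cube with `□(A, C) ≤ □(A, B) + η` (the coordinates are the distances from `N` subsets of `B` which
correspond to small subsets of `A`), and the mm-spaces given by measures on the cube form a
box-compact set. Hence `□(A, ·)` is attained on the pyramids up to `η` in a fixed compact set.
-/

set_option autoImplicit false

namespace Pool.Agent.Results.MP_5a76a9_gt.FellWijsman

open Pool.Agent.R735.Pyr Topology

/-- For the weak topology `t` on the set of pyramids, the inclusion into the closed subsets of
`(XX, □)` is a topological embedding for the Fell topology (Q1) and for the Wijsman topology (Q2). -/
theorem result (t : TopologicalSpace Pyr) (ht : IsWeakTopology t) :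
    @IsEmbedding Pyr ClosedSets t fell incl ∧ @IsEmbedding Pyr ClosedSets t wijsman incl :=
  ⟨fell_emb t ht, wijsman_emb t ht⟩

end Pool.Agent.Results.MP_5a76a9_gt.FellWijsman
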